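import Mathlib
import Pool.Agent.H66.HW.Main

/-!
Hadwiger's conjecture for graphs in which every vertex has few non-neighbours.
-/

set_option autoImplicit false

namespace Pool.Agent.Results.MP_b47bfb_co.DenseHadwiger

open SimpleGraph Pool.Agent.Lib.H80

/-- If every vertex of the finite graph `G` has at most `d` non-neighbours, and the complement of `G`
has a matching with `s` edges, where `s ≥ 2 d ^ 2 - 1` or `s ≥ 90 d ^ (4/3)`, then `G` satisfies
Hadwiger's conjecture: for every `k`, if `G` has no proper colouring with `k` colours then `G` has a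
`K_{k+1}` minor. -/
theorem result {V : Type*} [Fintype V] (G : SimpleGraph V) (d : ℕ)
    (hd : ∀ v, (Gᶜ.neighborSet v).ncard ≤ d)
    (M : Gᶜ.Subgraph) (hM : M.IsMatching)
    (hs : 2 * d ^ 2 ≤ M.edgeSet.ncard + 1 ∨ 729000 * d ^ 4 ≤ M.edgeSet.ncard ^ 3)
    (k : ℕ) (hk : ¬ G.Colorable k) :
    ∃ f : Fin (k + 1) → Set V,
      (∀ i, (G.induce (f i)).Connected) ∧
      (∀ i j, i ≠ j → Disjoint (f i) (f j)) ∧
      (∀ i j, i ≠ j → ∃ u ∈ f i, ∃ v ∈ f j, G.Adj u v) := by
  classical
  have hset : ∀ v, {w | v ≠ w ∧ ¬ G.Adj v w} = Gᶜ.neighborSet v := by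
    intro v
    ext w
    simp only [Set.mem_ofPred_eq, SimpleGraph.mem_neighborSet, SimpleGraph.compl_adj]
  obtain ⟨P, hP, hPc⟩ := exists_isM_of_matching M hM
  refine (Pool.Agent.H66.HW.main G (d := d) ?_ P hP (by rw [hPc]; exact hs) hk).hasK
  intro v
  rw [hset]
  exact hd v

end Pool.Agent.Results.MP_b47bfb_co.DenseHadwiger
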