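import Mathlib
import Pool.Agent.KTM3.Final

/-!
# Hadwiger's conjecture for graphs with few triangles on every edge and not too many vertices
-/

set_option autoImplicit false

namespace Pool.Agent.Results.MP_b47bfb_co.TriangleSparse

/-- There are `c > 0` and `k₀` such that for all `k ≥ k₀` and all real `y ≥ √(log k)`: if a finite
graph `G` with at most `exp (k / e ^ y)` vertices, every edge of which lies in at most `k / e ^ y`
triangles, has no proper colouring with `k` colours, then `K_t` is a minor of `G` for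
`t = ⌊c k y / √(log k)⌋`. -/
theorem result : ∃ c : ℝ, 0 < c ∧ ∃ k₀ : ℕ, ∀ (V : Type) [Fintype V] (G : SimpleGraph V)
    (k : ℕ) (y : ℝ), k₀ ≤ k → Real.sqrt (Real.log k) ≤ y →
    (Fintype.card V : ℝ) ≤ Real.exp (k / Real.exp y) →
    (∀ u v, G.Adj u v → ({w | G.Adj u w ∧ G.Adj v w}.ncard : ℝ) ≤ k / Real.exp y) →
    ¬ G.Colorable k →
      ∃ f : Fin ⌊c * k * y / Real.sqrt (Real.log k)⌋₊ → Set V,
        (∀ i, (G.induce (f i)).Connected) ∧
        (∀ i j, i ≠ j → Disjoint (f i) (f j)) ∧
        (∀ i j, i ≠ j → ∃ u ∈ f i, ∃ v ∈ f j, G.Adj u v) := by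
  obtain ⟨k₀, h⟩ := Pool.Agent.KTM3.main
  refine ⟨1 / 960000, by norm_num, k₀, ?_⟩
  intro V _ G k y hk hy hn htri hG
  have h1 := h V G k y hk hy hG hn htri
  have e1 : (k * y / (960000 * Real.sqrt (Real.log k)) : ℝ) =
      1 / 960000 * k * y / Real.sqrt (Real.log k) := by ring
  rw [e1] at h1
  exact h1

end Pool.Agent.Results.MP_b47bfb_co.TriangleSparse
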